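import Pool.Agent.H65.NV.PTargets

/-!
# The scaled weight functions
-/

set_option autoImplicit false

open MeasureTheory Set Filter NumberField NumberField.InfinitePlace
open Pool.Agent.H65.CM4 Pool.Agent.H61.NVK Pool.Agent.H89.NV Pool.Agent.H65.NV
open scoped Real

namespace Pool.Agent.H49.NVP_GDB

variable (k : Type) [Field k] [NumberField k] [IsTotallyReal k]

theorem pf_GDB (hLND : T_LND) : T_GDB k := by
  intro G η hG
  refine ⟨?_, ?_⟩
  · have h1 : HasCompactSupport G := by
      refine HasCompactSupport.intro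
        (K := Set.pi univ fun _ : Pl k => Icc η (1 / η)) (isCompact_univ_pi fun _ => isCompact_Icc) ?_
      intro u hu
      refine hG.supp u ?_
      by_contra h
      push Not at h
      exact hu fun v _ => h v
    obtain ⟨C, hC⟩ := hG.smooth.continuous.bounded_above_of_compact_support h1
    exact ⟨C, fun u => by rw [← Real.norm_eq_abs]; exact hC u⟩
  · intro m
    obtain ⟨C, hC, h1⟩ := hLND (Pl k) G η 1 hG.pos zero_lt_one hG.smooth hG.supp m
    have h2 := h1 (fun _ => 1) 1 zero_le_one (fun p e _ _ => ⟨fun _ => 1,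
      differentiableOn_const _, fun s _ => by simp, fun s _ => by simp⟩)
    refine ⟨C, hC, fun T hT => ?_⟩
    have hT0 : 0 < T := by linarith
    have key : ∀ p e : Pl k → ℝ, (fun s : ℝ => G (fun v => (p + s • e) v / T)) =
        fun s : ℝ => (fun x : ℝ => G (fun v => p v / T + x * e v) * 1) (T⁻¹ * s) := by
      intro p e
      funext s
      simp only [mul_one]
      refine congrArg G ?_
      funext v
      simp only [Pi.add_apply, Pi.smul_apply, smul_eq_mul]
      field_simp
    have h3 : ∀ p e : Pl k → ℝ, (∀ v, |e v| ≤ 1) →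
        ContDiff ℝ m (fun x : ℝ => G (fun v => p v / T + x * e v) * 1) ∧
        ∀ s : ℝ, |iteratedDeriv m (fun x : ℝ => G (fun v => p v / T + x * e v) * 1) s| ≤ C := by
      intro p e he
      obtain ⟨h4, h5⟩ := h2 (fun v => p v / T) e he
      exact ⟨h4, fun s => (h5 s).trans (le_of_eq (mul_one C))⟩
    refine ⟨?_, ?_, ?_⟩
    · refine hG.smooth.continuous.comp ?_
      fun_prop
    · intro p e he
      show ContDiff ℝ m (fun s : ℝ => G (fun v => (p + s • e) v / T))
      rw [key p e]
      exact (h3 p e he).1.comp (contDiff_const.mul contDiff_id)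
    · intro p e he
      show |iteratedDeriv m (fun s : ℝ => G (fun v => (p + s • e) v / T)) 0| ≤ C / T ^ m
      obtain ⟨h4, h5⟩ := h3 p e he
      rw [key p e, iteratedDeriv_comp_const_mul h4]
      have h6 := h5 (T⁻¹ * 0)
      show |T⁻¹ ^ m * iteratedDeriv m (fun x : ℝ => G (fun v => p v / T + x * e v) * 1)
        (T⁻¹ * 0)| ≤ C / T ^ m
      rw [abs_mul, abs_of_pos (by positivity), inv_pow, div_eq_inv_mul]
      exact mul_le_mul_of_nonneg_left h6 (by positivity)

end Pool.Agent.H49.NVP_GDB
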